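import Mathlib

set_option autoImplicit false

namespace Pool.Agent.Results.MP_682377_al.Counter

open Function TrivSqZeroExt

section
variable {R : Type} [CommRing R]

theorem fgker (I : Ideal R) [Module.FinitePresentation R I] {n : ℕ} (r : Fin n → R)
    (h : Ideal.span (Set.range r) = I) : ∃ (s : Finset (Fin n → R)),
      ∀ c, c ∈ Submodule.span R (s : Set (Fin n → R)) ↔ ∑ i, c i * r i = 0 := by
  have hr : ∀ i, r i ∈ I := fun i => h ▸ Ideal.subset_span ⟨i, rfl⟩
  let l : (Fin n → R) →ₗ[R] I :=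
    (Fintype.linearCombination R r).codRestrict I fun c => by
      rw [Fintype.linearCombination_apply]
      exact sum_mem fun i _ => Ideal.mul_mem_left _ _ (hr i)
  obtain ⟨s, hs⟩ := Module.FinitePresentation.fg_ker l fun y => by
    have : y.1 ∈ Ideal.span (Set.range r) := h.ge y.2
    rw [Ideal.span, ← Fintype.range_linearCombination] at this
    obtain ⟨c, hc⟩ := this
    exact ⟨c, Subtype.ext hc⟩
  exact ⟨s, fun c => by simp [hs, l, Subtype.ext_iff, Fintype.linearCombination_apply]⟩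

theorem fpres [IsLocalRing R] (I : Ideal R) (hI : I ≠ ⊤) {n₀ n₁ n₂ : ℕ}
    (f₂ : (Fin n₂ → R) →ₗ[R] (Fin n₁ → R)) (f₁ : (Fin n₁ → R) →ₗ[R] (Fin n₀ → R))
    (f₀ : (Fin n₀ → R) →ₗ[R] (R ⧸ I)) (h2 : Exact f₂ f₁) (h1 : Exact f₁ f₀) (h0 : Surjective f₀) :
    Module.FinitePresentation R I := by
  obtain ⟨ρ, hρ⟩ := Module.projective_lifting_property I.mkQ f₀ I.mkQ_surjective
  have hρ' : ∀ v, I.mkQ (ρ v) = f₀ v := LinearMap.congr_fun hρ
  have su : Surjective ρ := by
    obtain ⟨v, hv⟩ := h0 (I.mkQ 1)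
    have h3 : ρ v - 1 ∈ I := (Submodule.Quotient.eq I).1 ((hρ' v).trans hv)
    obtain ⟨u, hu⟩ := (IsLocalRing.isUnit_or_isUnit_one_sub_self (ρ v)).resolve_right
      fun h => hI (I.eq_top_of_isUnit_mem (by simpa using neg_mem h3) h)
    exact fun y => ⟨(y * ↑u⁻¹) • v, by simp [← hu]⟩
  have fp : Module.FinitePresentation R (LinearMap.range f₁) :=
    Module.finitePresentation_of_surjective f₁.rangeRestrict f₁.surjective_rangeRestrict (by
      rw [LinearMap.ker_rangeRestrict, h2.linearMap_ker_eq, ← Submodule.map_top]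
      exact Module.Finite.fg_top.map _)
  have mem : ∀ v, v ∈ LinearMap.range f₁ ↔ ρ v ∈ I := fun v => by
    rw [← h1.linearMap_ker_eq, LinearMap.mem_ker, ← hρ', Submodule.mkQ_apply,
      Submodule.Quotient.mk_eq_zero]
  exact Module.finitePresentation_of_surjective (ρ.restrict fun v hv => (mem v).1 hv) (fun y => by
    obtain ⟨v, hv⟩ := su y
    exact ⟨⟨v, (mem v).2 (hv ▸ y.2)⟩, Subtype.ext hv⟩) (by
    apply Submodule.fg_of_fg_map_injective _ (LinearMap.range f₁).injective_subtype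
    refine (congrArg Submodule.FG ?_).mpr (Module.FinitePresentation.fg_ker ρ su)
    ext v
    simp only [Submodule.mem_map, LinearMap.mem_ker, Subtype.ext_iff]
    exact ⟨fun ⟨w, h3, h4⟩ => h4 ▸ h3, fun h => ⟨⟨v, (mem v).2 (h ▸ zero_mem _)⟩, h, rfl⟩⟩)

theorem notproj (x y : R) (h1 : ∀ a, a * x = 0 → a * y = 0 → a = 0)
    (h2 : ∀ a b, x * a + y * b ≠ 1) :
    ∃ (E : Type) (_ : AddCommGroup E) (_ : Module R E) (g₁ : R →ₗ[R] (R × R))
      (g₀ : (R × R) →ₗ[R] E), Injective g₁ ∧ Exact g₁ g₀ ∧ Surjective g₀ ∧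
        ¬ Module.Projective R E := by
  let g : R →ₗ[R] R × R := LinearMap.toSpanSingleton R _ (x, y)
  have hg : Injective g := (injective_iff_map_eq_zero g).2 fun a h =>
    h1 a (congrArg Prod.fst h) (congrArg Prod.snd h)
  refine ⟨(R × R) ⧸ LinearMap.range g, inferInstance, inferInstance, g, (LinearMap.range g).mkQ,
    hg, LinearMap.exact_map_mkQ_range g, Submodule.mkQ_surjective _, fun h => ?_⟩
  obtain ⟨σ, hσ⟩ := Module.projective_lifting_property (LinearMap.range g).mkQ LinearMap.id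
    (Submodule.mkQ_surjective _)
  have h3 : ∀ v, ∃ a, g a = v - σ ((LinearMap.range g).mkQ v) := fun v => by
    rw [← LinearMap.mem_range, ← Submodule.Quotient.mk_eq_zero, ← Submodule.mkQ_apply, map_sub,
      sub_eq_zero]
    exact (LinearMap.congr_fun hσ _).symm
  obtain ⟨a, ha⟩ := h3 (1, 0)
  obtain ⟨b, hb⟩ := h3 (0, 1)
  refine h2 a b (hg ?_)
  have h5 : (LinearMap.range g).mkQ (g 1) = 0 := (Submodule.Quotient.mk_eq_zero _).2 ⟨1, rfl⟩
  have h6 : g 1 = x • ((1 : R), (0 : R)) + y • ((0 : R), (1 : R)) := by simp [g]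
  rw [map_add, ← smul_eq_mul, ← smul_eq_mul, map_smul, map_smul, ha, hb, smul_sub, smul_sub,
    ← add_sub_add_comm, ← map_smul, ← map_smul, ← map_smul, ← map_smul, ← map_add, ← map_add,
    ← h6, h5, map_zero, sub_zero]

end

variable (A : Type) [CommRing A]

abbrev J := {a : A // a ≠ 0 ∧ ¬ IsUnit a} × ℕ

abbrev M := DirectSum (J A) fun j => A ⧸ Ideal.span {j.1.1}

abbrev R := TrivSqZeroExt A (M A)

variable {A} [IsDomain A] [IsLocalRing A] {X Y : A}

theorem depth (hX : Prime X) (hY : ¬ X ∣ Y) (m : M A) (h1 : X • m = 0) (h2 : Y • m = 0) :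
    m = 0 := by
  ext j
  have h3 := congrArg (fun m : M A => m j) h1
  have h4 := congrArg (fun m : M A => m j) h2
  simp only [DirectSum.smul_apply, DirectSum.zero_apply] at h3 h4 ⊢
  obtain ⟨u, hu⟩ := Ideal.Quotient.mk_surjective (m j)
  rw [← hu] at h3 h4 ⊢
  obtain ⟨v, hv⟩ := Ideal.mem_span_singleton.1 (Ideal.Quotient.eq_zero_iff_mem.1 h3)
  obtain ⟨w, hw⟩ := Ideal.mem_span_singleton.1 (Ideal.Quotient.eq_zero_iff_mem.1 h4)
  simp only [smul_eq_mul] at hv hw
  have e : Y * v = X * w := mul_left_cancel₀ j.1.2.1 (by linear_combination X * hw - Y * hv)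
  rcases hX.dvd_or_dvd ⟨w, e⟩ with h | ⟨v', rfl⟩
  · exact (hY h).elim
  · refine Ideal.Quotient.eq_zero_iff_mem.2 (Ideal.mem_span_singleton.2 ⟨v', ?_⟩)
    exact mul_left_cancel₀ hX.ne_zero (by linear_combination hv)

theorem key (hX : Prime X) (I : Ideal (R A)) (hI : I ≠ ⊤) [Module.FinitePresentation (R A) I]
    (n : ℕ) : ∀ r : Fin n → R A, Ideal.span (Set.range r) = I → I = ⊥ := by
  classical
  induction n with
  | zero => exact fun r h => by simpa using h.symm
  | succ n ih =>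
    intro r h
    have hr : ∀ i, r i ∈ I := fun i => h ▸ Ideal.subset_span ⟨i, rfl⟩
    by_cases h1 : ∃ c : Fin (n + 1) → R A, ∑ i, c i * r i = 0 ∧ ∃ i, IsUnit (c i)
    · obtain ⟨c, h1, i, u, hu⟩ := h1
      refine ih (fun j => r (i.succAbove j)) (le_antisymm (Ideal.span_le.2 ?_)
        (h ▸ Ideal.span_le.2 ?_))
      · rintro _ ⟨j, rfl⟩
        exact hr _
      · rintro _ ⟨j, rfl⟩
        rcases Fin.eq_self_or_eq_succAbove i j with rfl | ⟨j, rfl⟩
        · rw [Fin.sum_univ_succAbove _ j, ← hu, add_eq_zero_iff_eq_neg] at h1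
          rw [SetLike.mem_coe, ← Ideal.unit_mul_mem_iff_mem _ u.isUnit, h1]
          exact neg_mem (sum_mem fun k _ => Ideal.mul_mem_left _ _ (Ideal.subset_span ⟨k, rfl⟩))
        · exact Ideal.subset_span ⟨j, rfl⟩
    exfalso
    push Not at h1
    obtain ⟨s, hl⟩ := fgker I r h
    have nu : ¬ IsUnit (r 0).fst := fun h => hI (I.eq_top_of_isUnit_mem (hr 0)
      (isUnit_iff_isUnit_fst.2 h))
    obtain ⟨a, ha⟩ : ∃ a : {a : A // a ≠ 0 ∧ ¬ IsUnit a}, a.1 ∣ (r 0).fst := by
      by_cases h0 : (r 0).fst = 0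
      · exact ⟨⟨X, hX.ne_zero, hX.not_unit⟩, by rw [h0]; exact dvd_zero _⟩
      · exact ⟨⟨_, h0, nu⟩, dvd_rfl⟩
    obtain ⟨k, hk⟩ := Infinite.exists_notMem_finset
      ((s.biUnion fun c => DFinsupp.support (c 0).snd).image Prod.snd)
    let P : Ideal (A ⧸ Ideal.span {a.1}) := (IsLocalRing.maximalIdeal A).map (Ideal.Quotient.mk _)
    have hP : ∀ c ∈ Submodule.span (R A) (s : Set (Fin (n + 1) → R A)), (c 0).snd (a, k) ∈ P := fun c hc => by
      have nu : ∀ c ∈ Submodule.span (R A) (s : Set (Fin (n + 1) → R A)), (c 0).fst ∈ IsLocalRing.maximalIdeal A := fun c hc h =>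
        h1 c ((hl c).1 hc) 0 (isUnit_iff_isUnit_fst.2 h)
      induction hc using Submodule.span_induction with
      | mem c hc =>
        rw [DFinsupp.notMem_support_iff.1 fun h => hk (Finset.mem_image.2
          ⟨(a, k), Finset.mem_biUnion.2 ⟨c, hc, h⟩, rfl⟩)]
        exact zero_mem _
      | zero => exact zero_mem _
      | add c d _ _ h2 h3 => exact add_mem h2 h3
      | smul b c hc h2 =>
        rw [Pi.smul_apply, smul_eq_mul, snd_mul, op_smul_eq_smul, DirectSum.add_apply,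
          DirectSum.smul_apply, DirectSum.smul_apply]
        exact add_mem (P.mul_mem_left (Ideal.Quotient.mk _ b.fst) h2)
          (P.mul_mem_right _ (Ideal.mem_map_of_mem _ (nu c hc)))
    have h2 := hP (Pi.single 0 (inr (DirectSum.of _ (a, k) 1))) ((hl _).2 (by
      rw [Fin.sum_univ_succ]
      simp only [Pi.single_eq_same, Fin.succ_ne_zero, ne_eq, not_false_eq_true,
        Pi.single_eq_of_ne, zero_mul, Finset.sum_const_zero, add_zero]
      ext1
      · simp
      · rw [snd_mul, fst_inr, snd_inr, zero_smul, zero_add, op_smul_eq_smul, snd_zero,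
          ← DirectSum.of_smul A, Algebra.smul_def, mul_one]
        have : algebraMap A (A ⧸ Ideal.span {a.1}) (r 0).fst = 0 :=
          Ideal.Quotient.eq_zero_iff_mem.2 (Ideal.mem_span_singleton.2 ha)
        rw [this, map_zero]))
    rw [Pi.single_eq_same, snd_inr, DirectSum.of_eq_same] at h2
    obtain ⟨z, h3, h4⟩ := (Ideal.mem_map_iff_of_surjective _ Ideal.Quotient.mk_surjective).1 h2
    obtain ⟨w, hw⟩ := Ideal.mem_span_singleton.1 (Ideal.Quotient.eq.1 (h4.trans (map_one _).symm))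
    refine (IsLocalRing.maximalIdeal.isMaximal A).ne_top ((Ideal.eq_top_iff_one _).2 ?_)
    rw [show (1 : A) = z - a.1 * w by linear_combination -hw]
    exact sub_mem h3 (Ideal.mul_mem_right _ _ a.2.2)

theorem main (hX : Prime X) (hY : ¬ X ∣ Y) (hY' : ¬ IsUnit Y) : ∃ (R : Type) (_ : CommRing R),
    (∀ (I : Ideal R) (n₀ n₁ n₂ : ℕ) (f₂ : (Fin n₂ → R) →ₗ[R] (Fin n₁ → R))
      (f₁ : (Fin n₁ → R) →ₗ[R] (Fin n₀ → R)) (f₀ : (Fin n₀ → R) →ₗ[R] (R ⧸ I)),
      Exact f₂ f₁ → Exact f₁ f₀ → Surjective f₀ → Module.Projective R (R ⧸ I)) ∧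
    ∃ (E : Type) (_ : AddCommGroup E) (_ : Module R E) (g₁ : R →ₗ[R] (R × R))
      (g₀ : (R × R) →ₗ[R] E), Injective g₁ ∧ Exact g₁ g₀ ∧ Surjective g₀ ∧
        ¬ Module.Projective R E := by
  refine ⟨R A, inferInstance, fun I n₀ n₁ n₂ f₂ f₁ f₀ h2 h1 h0 => ?_, ?_⟩
  · by_cases hI : I = ⊤
    · subst hI
      have : Subsingleton (R A ⧸ (⊤ : Ideal (R A))) := Ideal.Quotient.subsingleton_iff.2 rfl
      infer_instance
    have loc : IsLocalRing (R A) := .of_isUnit_or_isUnit_one_sub_self fun a => by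
      simpa [isUnit_iff_isUnit_fst] using IsLocalRing.isUnit_or_isUnit_one_sub_self a.fst
    have := fpres I hI f₂ f₁ f₀ h2 h1 h0
    obtain ⟨n, r, hr⟩ := Submodule.fg_iff_exists_fin_generating_family.1
      (Module.Finite.iff_fg.1 (inferInstance : Module.Finite (R A) I))
    obtain rfl := key hX I hI n r hr
    exact .of_equiv (Submodule.quotEquivOfEqBot _ rfl).symm
  · refine notproj (inl X) (inl Y) (fun a h3 h4 => ?_) fun a b h4 => ?_
    · have h5 : a.fst = 0 := by simpa [hX.ne_zero] using congrArg fst h3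
      ext1
      · exact h5
      · exact depth hX hY _ (by simpa [h5] using congrArg snd h3)
          (by simpa [h5] using congrArg snd h4)
    have h5 : X * a.fst + Y * b.fst = 1 := by simpa using congrArg fst h4
    exact (IsLocalRing.maximalIdeal.isMaximal A).ne_top ((Ideal.eq_top_iff_one _).2
      (h5 ▸ add_mem (Ideal.mul_mem_right _ _ hX.not_unit) (Ideal.mul_mem_right _ _ hY')))

theorem result : ∃ (R : Type) (_ : CommRing R),
    (∀ (I : Ideal R) (n₀ n₁ n₂ : ℕ) (f₂ : (Fin n₂ → R) →ₗ[R] (Fin n₁ → R))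
      (f₁ : (Fin n₁ → R) →ₗ[R] (Fin n₀ → R)) (f₀ : (Fin n₀ → R) →ₗ[R] (R ⧸ I)),
      Exact f₂ f₁ → Exact f₁ f₀ → Surjective f₀ → Module.Projective R (R ⧸ I)) ∧
    ∃ (E : Type) (_ : AddCommGroup E) (_ : Module R E) (g₁ : R →ₗ[R] (R × R))
      (g₀ : (R × R) →ₗ[R] E), Injective g₁ ∧ Exact g₁ g₀ ∧ Surjective g₀ ∧
        ¬ Module.Projective R E :=
  main (A := PowerSeries (PowerSeries ℚ)) (Y := PowerSeries.C PowerSeries.X) PowerSeries.X_prime
    (by simp [PowerSeries.X_dvd_iff]) (by simp [PowerSeries.isUnit_iff_constantCoeff])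

end Pool.Agent.Results.MP_682377_al.Counter
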